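import Mathlib
import Pool.Agent.H63.Dist5

set_option autoImplicit false
open Set Filter Topology

namespace Pool.Agent.Results.MP_46bc6f_an.ZeroEntropy

/-- The left shift. -/
def shift {A : Type} (x : ℤ → A) : ℤ → A := fun n => x (n + 1)

/-- Nonempty closed shift-invariant sets. -/
def IsSubshift {A : Type} [TopologicalSpace A] (X : Set (ℤ → A)) : Prop :=
  X.Nonempty ∧ IsClosed X ∧ shift '' X = X

/-- The words `x_[0,n)` of points of `X`. -/
def words {A : Type} (X : Set (ℤ → A)) (n : ℕ) : Set (Fin n → A) := (fun x i => x (i : ℕ)) '' X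

/-- Topological entropy zero. -/
def HasZeroEntropy {A : Type} (X : Set (ℤ → A)) : Prop :=
  Tendsto (fun n : ℕ => Real.log (words X n).ncard / n) atTop (𝓝 0)

/-- A self-homeomorphism of `X` commuting with the shift. -/
def IsAut {A : Type} [TopologicalSpace A] {X : Set (ℤ → A)} (φ : X ≃ₜ X) : Prop :=
  ∀ x y : X, y.1 = shift x.1 → (φ y).1 = shift (φ x).1

/-- Word length with respect to `S`. -/
noncomputable def wordLength {G : Type} [Group G] (S : Set G) (g : G) : ℕ :=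
  sInf {n | ∃ l : List G, l.length = n ∧ (∀ h ∈ l, h ∈ S ∨ h⁻¹ ∈ S) ∧ l.prod = g}

/-- The subgroup of elements satisfying `P` contains a distortion element. -/
def HasDistortion (G : Type) [Group G] (P : G → Prop) : Prop :=
  ∃ (S : Set G) (g : G), S.Finite ∧ (∀ h ∈ S, P h) ∧ g ∈ Subgroup.closure S ∧ ¬IsOfFinOrder g ∧
    Tendsto (fun n : ℕ => (wordLength S (g ^ n) : ℝ) / n) atTop (𝓝 0)

open Pool.Agent.H63.Dist

theorem w_step (n : ℕ) : (words Z n).ncard ≤ Nat.card (Fin 4 × Ph) * (words Z (n / 4 + 4)).ncard := by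
  let ex : (Fin (n / 4 + 4) → St) → ℤ → St := fun w j =>
    if h : j.toNat < n / 4 + 4 then w ⟨_, h⟩ else w 0
  rw [← ncard_univ, ← ncard_prod]
  refine (ncard_le_ncard ?_).trans (ncard_image_le (f := fun (p : (Fin 4 × Ph) × (Fin (n / 4 + 4) → St))
    (i : Fin n) => σ p.1.1 (E p.1.2 (ex p.2)) (i : ℕ)))
  rintro _ ⟨x, hx, rfl⟩
  obtain ⟨r, ρ, z, h⟩ := ee_surj ⟨x, hx⟩
  obtain rfl : x = σ r (E ρ z) := congrArg Subtype.val h
  refine ⟨((r, ρ), fun i => z.1 (i : ℕ)), ⟨trivial, z, z.2, rfl⟩, funext fun i => ?_⟩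
  have : ∀ j : ℤ, 0 ≤ j → j < n / 4 + 4 → ex (fun i => z.1 (i : ℕ)) j = z.1 j := fun j h1 h2 => by
    simp only [ex]
    rw [dif_pos (by omega)]
    show z.1 (j.toNat : ℕ) = _
    rw [Int.toNat_of_nonneg h1]
  have hi := i.2
  have hr := r.2
  simp only [σ, E, lab, Y, unb]
  rw [this, this, this] <;> omega

theorem w_pow {A : Type} [Finite A] [Nonempty A] (X : Set (ℤ → A)) (c : ℕ)
    (hX : ∀ n, (words X n).ncard ≤ c * (words X (n / 4 + 4)).ncard) (k n : ℕ) :
    (words X n).ncard ≤ c ^ k * Nat.card A ^ (n / 4 ^ k + 5 * k) := by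
  induction k generalizing n with
  | zero => simpa [Nat.card_fun] using ncard_le_card (words X n)
  | succ k ih =>
    refine (hX n).trans ?_
    rw [pow_succ', mul_assoc]
    refine Nat.mul_le_mul_left _ ((ih _).trans (Nat.mul_le_mul_left _
      (Nat.pow_le_pow_right Nat.card_pos ?_)))
    have := Nat.add_div_le_div_add_div_add_one (n / 4) 4 (4 ^ k)
    have := Nat.div_le_self 4 (4 ^ k)
    rw [pow_succ', ← Nat.div_div_eq_div_mul]
    omega

theorem ent : HasZeroEntropy Z := by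
  obtain ⟨a, ha⟩ : ∃ a : ℝ, a = Nat.card (Fin 4 × Ph) := ⟨_, rfl⟩
  obtain ⟨b, hb⟩ : ∃ b : ℝ, b = Nat.card St := ⟨_, rfl⟩
  have a1 : 1 ≤ a := ha ▸ Nat.one_le_cast.2 Nat.card_pos
  have b1 : 1 ≤ b := hb ▸ Nat.one_le_cast.2 Nat.card_pos
  have lb := Real.log_nonneg b1
  refine tendsto_order.2 ⟨fun c hc => .of_forall fun n => hc.trans_le
    (div_nonneg (Real.log_natCast_nonneg _) n.cast_nonneg), fun ε hε => ?_⟩
  obtain ⟨k, hk⟩ := pow_unbounded_of_one_lt (2 * Real.log b / ε) (by norm_num : (1 : ℝ) < 4)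
  filter_upwards [(tendsto_const_div_atTop_nhds_zero_nat (k * Real.log a + 5 * k * Real.log b)).eventually
    (gt_mem_nhds (half_pos hε)), eventually_gt_atTop 0] with n hn h0
  have n0 : (0 : ℝ) < n := Nat.cast_pos.2 h0
  have h1 : Real.log (words Z n).ncard ≤ k * Real.log a + (n / 4 ^ k + 5 * k : ℕ) * Real.log b := by
    rw [← Real.log_pow, ← Real.log_pow, ← Real.log_mul (by positivity) (by positivity)]
    obtain ⟨x, hx⟩ := Z_ne
    refine Real.log_le_log (Nat.cast_pos.2 ((ncard_pos (toFinite _)).2 ⟨_, x, hx, rfl⟩)) ?_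
    rw [ha, hb]; exact_mod_cast w_pow Z _ w_step k n
  have h2 : ((4 ^ k * (n / 4 ^ k) : ℕ) : ℝ) ≤ n := Nat.cast_le.2 (Nat.mul_div_le _ _)
  generalize n / 4 ^ k = q at *
  rw [div_lt_iff₀ n0] at hn ⊢
  rw [div_lt_iff₀ hε] at hk
  push_cast at h1 h2
  nlinarith [mul_le_mul_of_nonneg_left h2 hε.le, mul_le_mul_of_nonneg_left hk.le q.cast_nonneg]

theorem result : ∃ (A : Type) (_ : Finite A) (_ : TopologicalSpace A) (_ : DiscreteTopology A)
    (X : Set (ℤ → A)), IsSubshift X ∧ HasZeroEntropy X ∧ HasDistortion (X ≃ₜ X) IsAut := by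
  haveI : CompactSpace Z := isCompact_iff_compactSpace.1 Z_cpt
  let s' : Fin 7 → Z ≃ₜ Z := fun g => Continuous.homeoOfEquivCompactToT2 (f := s g)
    (((cont3 (fun _ => Φ g) id).comp continuous_subtype_val).subtype_mk _)
  let π : (Z ≃ₜ Z) →* Equiv.Perm Z := MonoidHom.mk' (fun h => h.toEquiv) fun _ _ => rfl
  have hπ : Function.Injective π := Homeomorph.toEquiv_injective
  have h1 : ∀ l, π (ev s' l) = ev s l := fun l => by
    simp only [ev, map_list_prod, List.map_map]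
    congr 2
    funext p
    simp only [Function.comp]
    split_ifs
    · rfl
    · rw [map_inv]; rfl
  refine ⟨St, inferInstance, inferInstance, inferInstance, Z, ⟨Z_ne, Z_cpt.isClosed, ?_⟩, ent,
    range s', s' 2, finite_range _, ?_, Subgroup.subset_closure ⟨2, rfl⟩, fun h => ?_, ?_⟩
  · ext x
    constructor
    · rintro ⟨y, hy, rfl⟩; exact Z_σ 1 ⟨y, hy⟩
    · exact fun h => ⟨_, Z_σ (-1) ⟨x, h⟩, funext fun n => by simp [shift, σ]⟩
  · rintro _ ⟨g, rfl⟩ x y h
    show step g y = _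
    rw [h]; exact step_σ g 1 x
  · obtain ⟨n, hn, e⟩ := isOfFinOrder_iff_pow_eq_one.1 h
    exact inf_order n hn ((map_pow π (s' 2) n).symm.trans ((congrArg π e).trans π.map_one))
  · refine tendsto_order.2 ⟨fun c hc => .of_forall fun n => hc.trans_le (by positivity), fun ε hε => ?_⟩
    obtain ⟨N, hN⟩ := sublin (ε / 2) (half_pos hε)
    filter_upwards [eventually_ge_atTop N, eventually_gt_atTop 0] with n hn h0
    obtain ⟨l, hl, e⟩ := hN n hn
    have n0 : (0 : ℝ) < n := Nat.cast_pos.2 h0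
    have e' : (l.map fun p => if p.2 then s' p.1 else (s' p.1)⁻¹).prod = s' 2 ^ n :=
      hπ ((h1 l).trans (e.trans (map_pow π (s' 2) n).symm))
    have : wordLength (range s') (s' 2 ^ n) ≤ l.length := Nat.sInf_le ⟨_, by simp, fun h hh => by
      obtain ⟨p, -, rfl⟩ := List.mem_map.1 hh
      split_ifs <;> simp, e'⟩
    rw [div_lt_iff₀ n0]
    have : (wordLength (range s') (s' 2 ^ n) : ℝ) ≤ l.length := Nat.cast_le.2 this
    nlinarith

end Pool.Agent.Results.MP_46bc6f_an.ZeroEntropy
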